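import Pool.Agent.E8helper49.DD.Stm

set_option autoImplicit false

namespace Pool.Agent.E8helper87.DD

open Pool.Agent.E8helper49.DD

variable {x y z : Fin 12 → ℝ}

theorem ar_rot (x y : Fin 12 → ℝ) (T : Fin 20) (r : Fin 3) :
    ar x y (face T r) (face T (r + 1)) (face T (r + 2)) =
      ar x y (face T 0) (face T 1) (face T 2) := by
  have h : r = 0 ∨ r = 1 ∨ r = 2 := by fin_cases r <;> simp
  rcases h with rfl | rfl | rfl
  · rfl
  · change ar x y (face T 1) (face T 2) (face T 0) = _
    unfold ar; ring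
  · change ar x y (face T 2) (face T 0) (face T 1) = _
    unfold ar; ring

theorem vol_rot (x y z : Fin 12 → ℝ) (T : Fin 20) (r : Fin 3) (l : Fin 12) :
    vol x y z (face T r) (face T (r + 1)) (face T (r + 2)) l =
      vol x y z (face T 0) (face T 1) (face T 2) l := by
  have h : r = 0 ∨ r = 1 ∨ r = 2 := by fin_cases r <;> simp
  rcases h with rfl | rfl | rfl
  · rfl
  · change vol x y z (face T 1) (face T 2) (face T 0) l = _
    unfold vol; ring
  · change vol x y z (face T 2) (face T 0) (face T 1) l = _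
    unfold vol; ring

theorem pos_flag (h : Pos x y) (v : Fin 12) (i : Fin 5) (hi : lf v i ≠ 0) :
    0 < ar x y v (nbr v i) (nbr v (i + 1)) := by
  obtain ⟨r, h0, h1, h2⟩ := lf_spec v i
  have := h _ hi
  rw [← ar_rot x y (lf v i) r, h0, h1, h2] at this
  exact this

theorem weak_flag (h : ∀ T, T ≠ 0 → ∀ l, 0 ≤ vol x y z (face T 0) (face T 1) (face T 2) l)
    (v : Fin 12) (i : Fin 5) (hi : lf v i ≠ 0) (l : Fin 12) :
    0 ≤ vol x y z v (nbr v i) (nbr v (i + 1)) l := by
  obtain ⟨r, h0, h1, h2⟩ := lf_spec v i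
  have := h _ hi l
  rw [← vol_rot x y z (lf v i) r, h0, h1, h2] at this
  exact this

theorem cyc (s t : Fin 5 → ℝ) (ht : ∀ i, 0 < t i) (h : ∑ i, t i * s i = 0) :
    ∃ i, 0 ≤ s i ∧ s (i + 1) ≤ 0 := by
  by_contra hc
  push Not at hc
  have c0 : 0 ≤ s 0 → 0 < s 1 := hc 0
  have c1 : 0 ≤ s 1 → 0 < s 2 := hc 1
  have c2 : 0 ≤ s 2 → 0 < s 3 := hc 2
  have c3 : 0 ≤ s 3 → 0 < s 4 := hc 3
  have c4 : 0 ≤ s 4 → 0 < s 0 := hc 4
  rw [Fin.sum_univ_five] at h
  have t0 := ht 0
  have t1 := ht 1
  have t2 := ht 2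
  have t3 := ht 3
  have t4 := ht 4
  by_cases h0 : 0 ≤ s 0
  · have p1 := c0 h0
    have p2 := c1 p1.le
    have p3 := c2 p2.le
    have p4 := c3 p3.le
    have p0 := c4 p4.le
    have := mul_pos t0 p0
    have := mul_pos t1 p1
    have := mul_pos t2 p2
    have := mul_pos t3 p3
    have := mul_pos t4 p4
    linarith
  · have n0 : s 0 < 0 := not_le.1 h0
    have n4 : s 4 < 0 := by
      by_contra hh; exact absurd (c4 (not_lt.1 hh)) (not_lt.2 n0.le)
    have n3 : s 3 < 0 := by
      by_contra hh; exact absurd (c3 (not_lt.1 hh)) (not_lt.2 n4.le)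
    have n2 : s 2 < 0 := by
      by_contra hh; exact absurd (c2 (not_lt.1 hh)) (not_lt.2 n3.le)
    have n1 : s 1 < 0 := by
      by_contra hh; exact absurd (c1 (not_lt.1 hh)) (not_lt.2 n2.le)
    have := mul_neg_of_pos_of_neg t0 n0
    have := mul_neg_of_pos_of_neg t1 n1
    have := mul_neg_of_pos_of_neg t2 n2
    have := mul_neg_of_pos_of_neg t3 n3
    have := mul_neg_of_pos_of_neg t4 n4
    linarith

theorem inner_lf : ∀ v : Fin 12, 3 ≤ v → ∀ i, lf v i ≠ 0 := by decide

theorem inner_lf' : ∀ (v : Fin 12) (i : Fin 5), (3 ≤ v ∨ 3 ≤ nbr v i) → lf v (i - 1) ≠ 0 := by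
  decide

theorem outer_edge : ∀ (v : Fin 12) (i : Fin 5), ¬ (3 ≤ v ∨ 3 ≤ nbr v i) → lf v i ≠ 0 →
    (v = 0 ∧ nbr v i = 2) ∨ (v = 2 ∧ nbr v i = 1) ∨ (v = 1 ∧ nbr v i = 0) := by decide

/-- the cone at `l` which contains the barycentre of the points `a, b, c` -/
theorem step1 {w : Fin 12 → Fin 12 → ℝ} (hw : Weights w) (hout : Outer x y) (hhx : Harm w x)
    (hhy : Harm w y) (htri : ∀ v, 0 ≤ x v ∧ 0 ≤ y v ∧ x v + y v ≤ 1) (l a b c : Fin 12) :
    ∃ i, lf l i ≠ 0 ∧
      0 ≤ ar x y l (nbr l i) a + ar x y l (nbr l i) b + ar x y l (nbr l i) c ∧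
      ar x y l (nbr l (i + 1)) a + ar x y l (nbr l (i + 1)) b + ar x y l (nbr l (i + 1)) c ≤ 0 := by
  obtain ⟨ax, ay, axy⟩ := htri a
  obtain ⟨bx, bye, bxy⟩ := htri b
  obtain ⟨cx, cy, cxy⟩ := htri c
  obtain ⟨x0, y0, x1, y1, x2, y2⟩ := hout
  by_cases hl : 3 ≤ l
  · have hs := cyc (fun i => ar x y l (nbr l i) a + ar x y l (nbr l i) b + ar x y l (nbr l i) c)
      (fun i => w l (nbr l i)) (fun i => hw.2 l i (Or.inl hl)) (by
        have h1 := hhx l hl
        have h2 := hhy l hl
        have : ∑ i, w l (nbr l i) * (ar x y l (nbr l i) a + ar x y l (nbr l i) b +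
            ar x y l (nbr l i) c) =
            (∑ i, w l (nbr l i) * (x (nbr l i) - x l)) * (y a + y b + y c - 3 * y l) -
            (x a + x b + x c - 3 * x l) * ∑ i, w l (nbr l i) * (y (nbr l i) - y l) := by
          rw [Finset.sum_mul, Finset.mul_sum, ← Finset.sum_sub_distrib]
          refine Finset.sum_congr rfl fun i _ => ?_
          unfold ar
          ring
        rw [this, h1, h2]
        ring)
    obtain ⟨i, h1, h2⟩ := hs
    exact ⟨i, inner_lf l hl i, h1, h2⟩
  · have hl' : l = 0 ∨ l = 1 ∨ l = 2 := by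
      revert hl; revert l; decide
    by_contra hc
    push Not at hc
    rcases hl' with rfl | rfl | rfl
    · have c1 := hc 1 (by decide)
      have c2 := hc 2 (by decide)
      have c3 := hc 3 (by decide)
      have c4 := hc 4 (by decide)
      have e1 : nbr 0 1 = 2 := rfl
      have e2 : nbr 0 (1 + 1) = 3 := rfl
      have e2' : nbr 0 2 = 3 := rfl
      have e3 : nbr 0 (2 + 1) = 4 := rfl
      have e3' : nbr 0 3 = 4 := rfl
      have e4 : nbr 0 (3 + 1) = 5 := rfl
      have e4' : nbr 0 4 = 5 := rfl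
      have e5 : nbr 0 (4 + 1) = 1 := rfl
      rw [e1, e2] at c1
      rw [e2', e3] at c2
      rw [e3', e4] at c3
      rw [e4', e5] at c4
      have s1 : 0 ≤ ar x y 0 2 a + ar x y 0 2 b + ar x y 0 2 c := by
        unfold ar
        rw [x0, y0, x2, y2]
        linarith
      have s5 : ar x y 0 1 a + ar x y 0 1 b + ar x y 0 1 c ≤ 0 := by
        unfold ar
        rw [x0, y0, x1, y1]
        linarith
      have p2 := c1 s1
      have p3 := c2 p2.le
      have p4 := c3 p3.le
      have p5 := c4 p4.le
      linarith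
    · have c1 := hc 0 (by decide)
      have c2 := hc 1 (by decide)
      have c3 := hc 2 (by decide)
      have c4 := hc 3 (by decide)
      have e1 : nbr 1 0 = 0 := rfl
      have e2 : nbr 1 (0 + 1) = 5 := rfl
      have e2' : nbr 1 1 = 5 := rfl
      have e3 : nbr 1 (1 + 1) = 10 := rfl
      have e3' : nbr 1 2 = 10 := rfl
      have e4 : nbr 1 (2 + 1) = 6 := rfl
      have e4' : nbr 1 3 = 6 := rfl
      have e5 : nbr 1 (3 + 1) = 2 := rfl
      rw [e1, e2] at c1
      rw [e2', e3] at c2
      rw [e3', e4] at c3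
      rw [e4', e5] at c4
      have s1 : 0 ≤ ar x y 1 0 a + ar x y 1 0 b + ar x y 1 0 c := by
        unfold ar
        rw [x0, y0, x1, y1]
        linarith
      have s5 : ar x y 1 2 a + ar x y 1 2 b + ar x y 1 2 c ≤ 0 := by
        unfold ar
        rw [x1, y1, x2, y2]
        linarith
      have p2 := c1 s1
      have p3 := c2 p2.le
      have p4 := c3 p3.le
      have p5 := c4 p4.le
      linarith
    · have c1 := hc 1 (by decide)
      have c2 := hc 2 (by decide)
      have c3 := hc 3 (by decide)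
      have c4 := hc 4 (by decide)
      have e1 : nbr 2 1 = 1 := rfl
      have e2 : nbr 2 (1 + 1) = 6 := rfl
      have e2' : nbr 2 2 = 6 := rfl
      have e3 : nbr 2 (2 + 1) = 7 := rfl
      have e3' : nbr 2 3 = 7 := rfl
      have e4 : nbr 2 (3 + 1) = 3 := rfl
      have e4' : nbr 2 4 = 3 := rfl
      have e5 : nbr 2 (4 + 1) = 0 := rfl
      rw [e1, e2] at c1
      rw [e2', e3] at c2
      rw [e3', e4] at c3
      rw [e4', e5] at c4
      have s1 : 0 ≤ ar x y 2 1 a + ar x y 2 1 b + ar x y 2 1 c := by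
        unfold ar
        rw [x1, y1, x2, y2]
        linarith
      have s5 : ar x y 2 0 a + ar x y 2 0 b + ar x y 2 0 c ≤ 0 := by
        unfold ar
        rw [x0, y0, x2, y2]
        linarith
      have p2 := c1 s1
      have p3 := c2 p2.le
      have p4 := c3 p3.le
      have p5 := c4 p4.le
      linarith

theorem pl6a (x y z : Fin 12 → ℝ) (a b c l u u' : Fin 12) :
    ar x y a b c * vol x y z l u u' a = ar x y l u' a * vol x y z a b c u -
      ar x y l u a * vol x y z a b c u' -
      (ar x y l u u' + ar x y l u' a - ar x y l u a) * vol x y z a b c l := by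
  unfold ar vol
  ring

theorem pl6b (x y z : Fin 12 → ℝ) (a b c l u u' : Fin 12) :
    ar x y a b c * vol x y z l u u' b = ar x y l u' b * vol x y z a b c u -
      ar x y l u b * vol x y z a b c u' -
      (ar x y l u u' + ar x y l u' b - ar x y l u b) * vol x y z a b c l := by
  unfold ar vol
  ring

theorem pl6c (x y z : Fin 12 → ℝ) (a b c l u u' : Fin 12) :
    ar x y a b c * vol x y z l u u' c = ar x y l u' c * vol x y z a b c u -
      ar x y l u c * vol x y z a b c u' -
      (ar x y l u u' + ar x y l u' c - ar x y l u c) * vol x y z a b c l := by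
  unfold ar vol
  ring

theorem pl5 (x y z : Fin 12 → ℝ) (v p u u' q : Fin 12) :
    ar x y v u u' * vol x y z v p u q = ar x y v p u * vol x y z v u u' q +
      vol x y z v p u u' * ar x y v u q := by
  unfold ar vol
  ring

/-- the vertices of `T` lie in the closed triangle `F` if the planes over `T` and `F` agree -/
theorem step3 {w : Fin 12 → Fin 12 → ℝ} (hw : Weights w) (hout : Outer x y) (hpos : Pos x y)
    (htri : ∀ v, 0 ≤ x v ∧ 0 ≤ y v ∧ x v + y v ≤ 1) (hj : Jump w x y z)
    (hweak : ∀ T, T ≠ 0 → ∀ l, 0 ≤ vol x y z (face T 0) (face T 1) (face T 2) l)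
    (F : Fin 20) (hF : F ≠ 0) (q : Fin 12)
    (hq : vol x y z (face F 0) (face F 1) (face F 2) q = 0) (r : Fin 3) :
    0 ≤ ar x y (face F r) (face F (r + 1)) q := by
  obtain ⟨j, h1, h2, h3⟩ := face_spec F r
  have hvq : vol x y z (face F r) (face F (r + 1)) (face F (r + 2)) q = 0 := by
    rw [vol_rot]; exact hq
  have hD : 0 < ar x y (face F r) (face F (r + 1)) (face F (r + 2)) := by
    rw [ar_rot]; exact hpos F hF
  rw [← h2, ← h3] at hvq hD
  rw [← h2]
  set v := face F r with hv
  by_cases hin : 3 ≤ v ∨ 3 ≤ nbr v j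
  · have hF' := inner_lf' v j hin
    have hD' := pos_flag hpos v (j - 1) hF'
    have hwk := weak_flag hweak v (j - 1) hF' q
    rw [sub_add_cancel] at hD' hwk
    have hid := pl5 x y z v (nbr v (j - 1)) (nbr v j) (nbr v (j + 1)) q
    rw [hvq, hj v j hin, mul_zero, zero_add] at hid
    have hW := hw.2 v j hin
    have hL : 0 ≤ w v (nbr v j) * ar x y v (nbr v (j - 1)) (nbr v j) *
        ar x y v (nbr v j) (nbr v (j + 1)) * ar x y v (nbr v j) q := by
      rw [← hid]
      exact mul_nonneg hD.le hwk
    by_contra hneg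
    push Not at hneg
    have := mul_neg_of_pos_of_neg (mul_pos (mul_pos hW hD') hD) hneg
    linarith
  · obtain ⟨x0, y0, x1, y1, x2, y2⟩ := hout
    obtain ⟨qx, qy, qxy⟩ := htri q
    have hlf : lf v j ≠ 0 := by rw [h1]; exact hF
    rcases outer_edge v j hin hlf with ⟨e1, e2⟩ | ⟨e1, e2⟩ | ⟨e1, e2⟩
    · rw [e2, e1]
      unfold ar
      rw [x0, y0, x2, y2]
      linarith
    · rw [e2, e1]
      unfold ar
      rw [x1, y1, x2, y2]
      linarith
    · rw [e2, e1]
      unfold ar
      rw [x0, y0, x1, y1]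
      linarith

/-- the barycentre of a positive triangle is in the interior -/
theorem inTri_self (T : Fin 20) (hT : 0 < ar x y (face T 0) (face T 1) (face T 2)) :
    InTri x y T ((x (face T 0) + x (face T 1) + x (face T 2)) / 3)
      ((y (face T 0) + y (face T 1) + y (face T 2)) / 3) := by
  intro r
  have h := ar_rot x y T r
  have key : (x (face T (r + 1)) - x (face T r)) *
      ((y (face T 0) + y (face T 1) + y (face T 2)) / 3 - y (face T r)) -
      ((x (face T 0) + x (face T 1) + x (face T 2)) / 3 - x (face T r)) *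
      (y (face T (r + 1)) - y (face T r)) = ar x y (face T 0) (face T 1) (face T 2) / 3 := by
    have hr : r = 0 ∨ r = 1 ∨ r = 2 := by fin_cases r <;> simp
    rcases hr with rfl | rfl | rfl
    · change (x (face T 1) - x (face T 0)) * _ - _ * (y (face T 1) - y (face T 0)) = _
      unfold ar; ring
    · change (x (face T 2) - x (face T 1)) * _ - _ * (y (face T 2) - y (face T 1)) = _
      unfold ar; ring
    · change (x (face T 0) - x (face T 2)) * _ - _ * (y (face T 0) - y (face T 2)) = _
      unfold ar; ring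
  rw [key]
  linarith

/-- the barycentre of a positive triangle with vertices in a closed triangle is in the interior -/
theorem inTri_of (T F : Fin 20) (hT : 0 < ar x y (face T 0) (face T 1) (face T 2))
    (hF : 0 < ar x y (face F 0) (face F 1) (face F 2))
    (h : ∀ r k, 0 ≤ ar x y (face F r) (face F (r + 1)) (face T k)) :
    InTri x y F ((x (face T 0) + x (face T 1) + x (face T 2)) / 3)
      ((y (face T 0) + y (face T 1) + y (face T 2)) / 3) := by
  intro r
  have key : (x (face F (r + 1)) - x (face F r)) *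
      ((y (face T 0) + y (face T 1) + y (face T 2)) / 3 - y (face F r)) -
      ((x (face T 0) + x (face T 1) + x (face T 2)) / 3 - x (face F r)) *
      (y (face F (r + 1)) - y (face F r)) =
      (ar x y (face F r) (face F (r + 1)) (face T 0) + ar x y (face F r) (face F (r + 1)) (face T 1) +
        ar x y (face F r) (face F (r + 1)) (face T 2)) / 3 := by
    unfold ar; ring
  rw [key]
  have h0 := h r 0
  have h1 := h r 1
  have h2 := h r 2
  by_contra hc
  push Not at hc
  have z0 : ar x y (face F r) (face F (r + 1)) (face T 0) = 0 := by linarith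
  have z1 : ar x y (face F r) (face F (r + 1)) (face T 1) = 0 := by linarith
  have z2 : ar x y (face F r) (face F (r + 1)) (face T 2) = 0 := by linarith
  have hF' : 0 < ar x y (face F r) (face F (r + 1)) (face F (r + 2)) := by
    rw [ar_rot]; exact hF
  set u := face F r
  set u' := face F (r + 1)
  set u'' := face F (r + 2)
  set a := face T 0
  set b := face T 1
  set c := face T 2
  have i1 : (x u' - x u) * ar x y a b c = 0 := by
    have : (x u' - x u) * ar x y a b c = (x c - x a) * (ar x y u u' a - ar x y u u' b) -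
        (x b - x a) * (ar x y u u' a - ar x y u u' c) := by unfold ar; ring
    rw [this, z0, z1, z2]; ring
  have i2 : (y u' - y u) * ar x y a b c = 0 := by
    have : (y u' - y u) * ar x y a b c = (y c - y a) * (ar x y u u' a - ar x y u u' b) -
        (y b - y a) * (ar x y u u' a - ar x y u u' c) := by unfold ar; ring
    rw [this, z0, z1, z2]; ring
  have j1 := (mul_eq_zero.1 i1).resolve_right hT.ne'
  have j2 := (mul_eq_zero.1 i2).resolve_right hT.ne'
  have : ar x y u u' u'' = 0 := by
    unfold ar; rw [j1, j2]; ring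
  linarith

/-- Piece LIM. -/
theorem t_LIM : S_LIM := by
  intro w x y z hw hout hpos hhx hhy htri hj hweak hdisj T hT l hl
  rcases (hweak T hT l).lt_or_eq with h | h
  · exact h
  exfalso
  have h0 : vol x y z (face T 0) (face T 1) (face T 2) l = 0 := h.symm
  obtain ⟨i, hF, hs, hs'⟩ := step1 hw hout hhx hhy htri l (face T 0) (face T 1) (face T 2)
  obtain ⟨r, f0, f1, f2⟩ := lf_spec l i
  have hTp := hpos T hT
  have wu := hweak T hT (nbr l i)
  have wu' := hweak T hT (nbr l (i + 1))
  have v0 := weak_flag hweak l i hF (face T 0)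
  have v1 := weak_flag hweak l i hF (face T 1)
  have v2 := weak_flag hweak l i hF (face T 2)
  have k0 := pl6a x y z (face T 0) (face T 1) (face T 2) l (nbr l i) (nbr l (i + 1))
  have k1 := pl6b x y z (face T 0) (face T 1) (face T 2) l (nbr l i) (nbr l (i + 1))
  have k2 := pl6c x y z (face T 0) (face T 1) (face T 2) l (nbr l i) (nbr l (i + 1))
  rw [h0, mul_zero, sub_zero] at k0 k1 k2
  have hsum : ar x y (face T 0) (face T 1) (face T 2) *
      (vol x y z l (nbr l i) (nbr l (i + 1)) (face T 0) +
        vol x y z l (nbr l i) (nbr l (i + 1)) (face T 1) +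
        vol x y z l (nbr l i) (nbr l (i + 1)) (face T 2)) ≤ 0 := by
    have e1 := mul_nonneg hs wu'
    have e2 := mul_nonneg (neg_nonneg.2 hs') wu
    have : ar x y (face T 0) (face T 1) (face T 2) *
      (vol x y z l (nbr l i) (nbr l (i + 1)) (face T 0) +
        vol x y z l (nbr l i) (nbr l (i + 1)) (face T 1) +
        vol x y z l (nbr l i) (nbr l (i + 1)) (face T 2)) =
        -(-(ar x y l (nbr l (i + 1)) (face T 0) + ar x y l (nbr l (i + 1)) (face T 1) +
          ar x y l (nbr l (i + 1)) (face T 2)) *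
          vol x y z (face T 0) (face T 1) (face T 2) (nbr l i)) -
        (ar x y l (nbr l i) (face T 0) + ar x y l (nbr l i) (face T 1) +
          ar x y l (nbr l i) (face T 2)) *
          vol x y z (face T 0) (face T 1) (face T 2) (nbr l (i + 1)) := by
      rw [mul_add, mul_add, k0, k1, k2]; ring
    rw [this]
    linarith
  have hsum' : vol x y z l (nbr l i) (nbr l (i + 1)) (face T 0) +
        vol x y z l (nbr l i) (nbr l (i + 1)) (face T 1) +
        vol x y z l (nbr l i) (nbr l (i + 1)) (face T 2) ≤ 0 := by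
    by_contra hc
    push Not at hc
    have := mul_pos hTp hc
    linarith
  have z0 : vol x y z l (nbr l i) (nbr l (i + 1)) (face T 0) = 0 := by linarith
  have z1 : vol x y z l (nbr l i) (nbr l (i + 1)) (face T 1) = 0 := by linarith
  have z2 : vol x y z l (nbr l i) (nbr l (i + 1)) (face T 2) = 0 := by linarith
  have hz : ∀ k : Fin 3, vol x y z (face (lf l i) 0) (face (lf l i) 1) (face (lf l i) 2)
      (face T k) = 0 := by
    intro k
    rw [← vol_rot x y z (lf l i) r, f0, f1, f2]
    have hk : k = 0 ∨ k = 1 ∨ k = 2 := by fin_cases k <;> simp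
    rcases hk with rfl | rfl | rfl
    · exact z0
    · exact z1
    · exact z2
  have hne : T ≠ lf l i := by
    rintro rfl
    exact hl r f0
  exact hdisj T (lf l i) hT hF hne _ _ (inTri_self T hTp)
    (inTri_of T (lf l i) hTp (hpos _ hF) fun r' k =>
      step3 hw hout hpos htri hj hweak (lf l i) hF (face T k) (hz k) r')

end Pool.Agent.E8helper87.DD
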